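import Pool.Agent.H57.SWC.Cgq
import Pool.Agent.H31.W1.H91.D2.Tlc4
import Pool.Agent.H31.W1.H91.D2.TlcA
import Pool.Agent.H31.W1.H91.FR.QpG

/-!
# Properties of a window which only see the levels at the windows of the set

`CgQ`: the property is the same for other levels with the same values at the windows of `G`. `cg_fa`,
`cg_attU`: free velocities and entropy fields; labels of the target.
-/

set_option autoImplicit false

namespace Pool.W.SWC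

open Pool.SWC

open Finset Real MvPolynomial MeasureTheory
open Pool.Agent.H49.Ent Pool.Agent.H32.Dense Pool.STK Pool.KA Pool.KSAT Pool.K2S Pool.PB Pool.GEN
open Pool.S6C Pool.GRW Pool.RCD Pool.PKG Pool.LA91 Pool.V0F Pool.ALT
open Pool.CHT
open Pool.TOP (TopS)


theorem tlAt_cg {m : ℕ} {S : Pool.PB.PCl m} {c : ℕ → Fin m} {d : ℕ} {sn sn' : ℕ → ℝ → ℝ} {G : Set ℝ}
    {g : ℝ} (hg : g ∈ G) (hs : ∀ i < d, ∀ w ∈ G, sn' i w = sn i w) {C : ℕ} {σ : ℚ} {κ : ℝ}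
    {k : ℕ} (h : Pool.W.LA91.TlAt S c d sn G g C σ κ k) : Pool.W.LA91.TlAt S c d sn' G g C σ κ k := by
  intro P₁ P₂ b w a o h1 h1' h2 h3 h4 h5 h6 h7
  obtain ⟨k₂, hk₂, h8⟩ := h P₁ P₂ b w a o (Pool.SWC.stG_cg (fun i hi => hs i hi g hg) h1)
    (Pool.SWC.stG_cg (fun i hi => hs i hi g hg) h1') h2 h3 h4 h5 h6 h7
  refine ⟨k₂, hk₂, fun D => ?_⟩
  obtain ⟨C₁, h9⟩ := h8 D
  refine ⟨C₁, Pool.S6C.Bas.mono 0 h9 ?_⟩
  intro J _ F A hA s gx e M Q n qe V V' v vL v' G₀ G₁ G₂ H₀ H₁ H₂ δ k1 k2 k3 k4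
  refine hA s gx e M Q n qe V V' v vL v' G₀ G₁ G₂ H₀ H₁ H₂ δ k1 k2 ⟨fun i hi => ?_, k3.hQ, k3.hn,
    k3.hqe, k3.hQe, k3.hP, k3.hPe, k3.hM, k3.hJ, k3.hN⟩ fun i hi => ?_
  · have := k3.hs i hi
    rwa [hs i hi g hg] at this
  · have := k4 i hi
    rwa [hs i hi b h2] at this

/-- **Free velocities and entropy fields** only see the levels at the windows of `G`. -/
theorem cg_fa (n : ℕ) : Pool.SWC.CgQ (Pool.W.LA91.FaQ : Pool.PKG.PropG n (ℕ × ℕ × ℚ × ℚ)) := by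
  intro p k₀ S P P₀ θ θ₀ c Pt r L L' T T' κ κ' G x hn hx _ hL hκ h
  have hk : ∀ l, p.1 < n → (∀ l < p.1, κ' l = .one) → l < p.1 → κ l = .one :=
    fun l h1 h2 h3 => hκ l (by omega) (h2 l h3)
  refine ⟨h.rn, fun d hd => Pool.SWC.chG_cg (h.ch d hd) fun i hi w hw => hL i (by omega) w hw,
    fun e1 e2 e3 e4 e5 k hk' => ?_, fun e1 e2 e3 e4 e5 k hk' => ?_,
    fun e1 e2 e3 e4 e5 k hk' => ?_⟩
  · exact Pool.SWC.freeAt_cg hx (fun i hi w hw => hL i (by omega) w hw)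
      (h.free e1 (fun l hl => hk l e1 e2 hl) e3 e4 e5 k hk')
  · exact Pool.SWC.freeNx_cg hx (fun i hi w hw => hL i (by omega) w hw)
      (h.next e1 (fun l hl => hk l e1 e2 hl) e3 e4 e5 k hk')
  · exact Pool.W.SWC.tlAt_cg hx (fun i hi w hw => hL i (by omega) w hw)
      (h.tl e1 (fun l hl => hk l e1 e2 hl) e3 e4 e5 k hk')


end Pool.W.SWC
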